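import Mathlib
import Pool.Agent.Helper34.LF.St

set_option autoImplicit false

/-!
# Project LF (MP_62b59a), module CV22: coverage of the sets of type (2,2) and (1,3)
-/

open Finset Pool.Agent.Helper34.LF

namespace Pool.Agent.Helper47.LF

theorem off_add (k l : Fin 4) (w : Fin 4 → ZMod 2) : off k w + off l w = w k + w l := by
  revert k l w
  decide

theorem add_self (x : ZMod 2) : x + x = 0 := by
  revert x
  decide

theorem half {N : ℕ} [NeZero N] (x x' : VA N) (b b' : VB N) (hb : b ≠ b')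
    (h0 : off x.1 (b.1 + b'.1) = 0) (hw : (b.1 + b'.1) x.1 ≠ (b.1 + b'.1) x'.1)
    (hx : x.2.2 + x.2.2 ≠ -(b.2 + b'.2)) :
    ∃ a, a ∉ ({x, x'} : Finset (VA N)) ∧ KP (insert a {x, x'}) {b, b'} := by
  have h1 : x.1 ≠ x'.1 := fun h => hw (by rw [h])
  set a : VA N := (x.1, ((pr x.1 (b.1 + b'.1), -(b.2 + b'.2)) - x.2)) with ha
  have hax : a ≠ x := by
    intro h
    have h2 : a.2.2 = x.2.2 := by rw [h]
    rw [ha] at h2
    have h3 : -(b.2 + b'.2) - x.2.2 = x.2.2 := h2
    apply hx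
    rw [eq_comm, ← sub_eq_iff_eq_add]
    exact h3
  have hax' : a ≠ x' := fun h => h1 (by rw [← h])
  refine ⟨a, ?_, Or.inr (Or.inr ⟨x, a, x', b, b', hax.symm, fun h => h1 (by rw [h]), hax', hb, ?_, rfl,
    ⟨rfl, h0, ?_⟩, hw⟩)⟩
  · rw [Finset.mem_insert, Finset.mem_singleton]
    rintro (h | h)
    · exact hax h
    · exact hax' h
  · rw [Finset.insert_comm]
  · rw [ha]
    change x.2 + ((pr x.1 (b.1 + b'.1), -(b.2 + b'.2)) - x.2) = _
    rw [add_sub_cancel]

theorem pCV22 : StCV22 := by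
  intro N _ X Y
  refine ⟨?_, ?_⟩
  · intro hX hY hpar hnd
    obtain ⟨x, x', hxx, rfl⟩ := Finset.card_eq_two.1 hX
    obtain ⟨b, b', hbb, rfl⟩ := Finset.card_eq_two.1 hY
    have hpar' : (b.1 + b'.1) x.1 + (b.1 + b'.1) x'.1 = 1 := by
      rw [par, Finset.sum_pair hxx, Finset.sum_pair hbb, Finset.sum_pair hbb] at hpar
      exact hpar
    have hne : (b.1 + b'.1) x.1 ≠ (b.1 + b'.1) x'.1 := by
      intro h
      rw [h, add_self] at hpar'
      exact absurd hpar' (by decide)
    have hoff : off x.1 (b.1 + b'.1) + off x'.1 (b.1 + b'.1) = 1 := by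
      rw [off_add, hpar']
    have hsum : ∑ y ∈ ({b, b'} : Finset (VB N)), y = b + b' := Finset.sum_pair hbb
    have hx : ∀ a ∈ ({x, x'} : Finset (VA N)), a.2.2 + a.2.2 ≠ -(b.2 + b'.2) := by
      intro a ha h
      apply hnd
      refine ⟨a, ha, ?_⟩
      rw [Finset.sum_pair hbb]
      exact h
    have hcase : off x.1 (b.1 + b'.1) = 0 ∨ off x'.1 (b.1 + b'.1) = 0 := by
      generalize off x.1 (b.1 + b'.1) = s at hoff
      generalize off x'.1 (b.1 + b'.1) = t at hoff
      revert s t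
      decide
    rcases hcase with h | h
    · exact half x x' b b' hbb h hne (hx x (Finset.mem_insert_self _ _))
    · rw [Finset.pair_comm x x']
      exact half x' x b b' hbb h hne.symm (hx x' (Finset.mem_insert_of_mem (Finset.mem_singleton_self _)))
  · intro hX hY hnd
    have hb : -∑ y ∈ Y, y ∉ Y := by
      intro h
      exact hnd ⟨_, h, (neg_neg _).symm⟩
    refine ⟨-∑ y ∈ Y, y, hb, Or.inr (Or.inl ⟨hX, ?_, ?_⟩)⟩
    · rw [Finset.card_insert_of_notMem hb, hY]
    · rw [Finset.sum_insert hb, neg_add_cancel]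

end Pool.Agent.Helper47.LF
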